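import Pool.Agent.X201.FG.GPFin

/-!
Groups with property FA and graph products.
-/

set_option autoImplicit false

namespace Pool.Agent.X201.FJ

open Pool.Agent.Y110.FJ Pool.Agent.X176.FJ
open Pool.Agent.Y462.SS (Closed)
open SimpleGraph
open scoped Pointwise

/-- **Serre's property FA**: for every action of the group on a tree by automorphisms such that no
vertex is adjacent to one of its translates there is a fixed vertex -/
def FA (F : Type) [Group F] : Prop :=
  ∀ (V : Type) (T : SimpleGraph V) [MulAction F V], T.IsTree →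
    (∀ (g : F) (u v : V), T.Adj u v → T.Adj (g • u) (g • v)) → (∀ (g : F) (u : V), ¬ T.Adj u (g • u)) →
    ∃ x : V, ∀ g : F, g • x = x

/-- images -/
theorem FA.map {F H : Type} [Group F] [Group H] (h : FA F) (f : F →* H) (hf : Function.Surjective f) :
    FA H := by
  intro V T _ hT hadj hinv
  letI : MulAction F V := MulAction.compHom V f
  obtain ⟨x, hx⟩ := h V T hT (fun g u v huv => hadj (f g) u v huv) (fun g u => hinv (f g) u)
  refine ⟨x, fun g => ?_⟩
  obtain ⟨g', rfl⟩ := hf g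
  exact hx g'

theorem FA.map_sub {G H : Type} [Group G] [Group H] {F : Subgroup G} (h : FA F) (f : G →* H) :
    FA (F.map f) := by
  refine h.map (f.subgroupMap F) (f.subgroupMap_surjective F)

namespace Tr

variable {V : Type} {T : SimpleGraph V} {F : Type} [Group F] [MulAction F V]

/-- the next vertex on the way to a fixed vertex is fixed -/
theorem fix_next (hT : T.IsTree) (hadj : ∀ (g : F) (u v : V), T.Adj u v → T.Adj (g • u) (g • v))
    {u v w : V} (hu : ∀ g : F, g • u = u) (hw : ∀ g : F, g • w = w) (huv : T.Adj u v)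
    (hd : T.dist v w + 1 = T.dist u w) (g : F) : g • v = v := by
  have h1 : T.Adj u (g • v) := by
    have := hadj g u v huv
    rwa [hu] at this
  have h2 : T.dist (g • v) w = T.dist v w := by
    have := dist_smul hT hadj g v w
    rwa [hw] at this
  apply closer_unique hT w u (g • v) v h1.symm huv.symm
  · rw [SimpleGraph.dist_comm (u := w) (v := g • v), h2, SimpleGraph.dist_comm (u := w) (v := u), hd]
  · rw [SimpleGraph.dist_comm (u := w) (v := v), SimpleGraph.dist_comm (u := w) (v := u), hd]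

/-- the fixed vertices form a tree -/
theorem fix_tree (hT : T.IsTree) (hadj : ∀ (g : F) (u v : V), T.Adj u v → T.Adj (g • u) (g • v))
    (hne : ∃ x : V, ∀ g : F, g • x = x) : (T.induce {x : V | ∀ g : F, g • x = x}).IsTree := by
  obtain ⟨x0, hx0⟩ := hne
  refine ⟨?_, hT.isAcyclic.induce _⟩
  have key : ∀ (n : ℕ) (u w : {x : V | ∀ g : F, g • x = x}), T.dist u.1 w.1 = n →
      (T.induce {x : V | ∀ g : F, g • x = x}).Reachable u w := by
    intro n
    induction n with
    | zero =>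
      intro u w h
      have h1 : u = w := Subtype.ext ((hT.connected u.1 w.1).dist_eq_zero_iff.1 h)
      rw [h1]
    | succ n ih =>
      intro u w h
      obtain ⟨v, hv, hd⟩ : ∃ v, T.Adj u.1 v ∧ T.dist v w.1 = n := by
        obtain ⟨p, hp⟩ := hT.connected.exists_walk_length_eq_dist u.1 w.1
        generalize u.1 = a at p hp h
        generalize w.1 = b at p hp h
        cases p with
        | nil => rw [Walk.length_nil, h] at hp; omega
        | @cons _ v _ hadj' q =>
          refine ⟨v, hadj', ?_⟩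
          rw [Walk.length_cons, h] at hp
          have h1 : T.dist v b ≤ q.length := SimpleGraph.dist_le q
          have h2 := hT.connected.dist_triangle (u := a) (v := v) (w := b)
          have h3 : T.dist a v = 1 := SimpleGraph.dist_eq_one_iff_adj.2 hadj'
          omega
      have hv' : ∀ g : F, g • v = v := fix_next hT hadj u.2 w.2 hv (by omega)
      have h1 : (T.induce {x : V | ∀ g : F, g • x = x}).Adj u ⟨v, hv'⟩ := hv
      exact h1.reachable.trans (ih ⟨v, hv'⟩ w hd)
  haveI : Nonempty {x : V | ∀ g : F, g • x = x} := ⟨⟨x0, hx0⟩⟩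
  exact ⟨fun u w => key _ u w rfl⟩

end Tr

/-- products of commuting subgroups -/
theorem FA.sup {G : Type} [Group G] {A D : Subgroup G} (hA : FA A) (hD : FA D)
    (hcomm : ∀ a ∈ A, ∀ d ∈ D, a * d = d * a) : FA (A ⊔ D : Subgroup G) := by
  intro V T _ hT hadj hinv
  let E : Subgroup G := A ⊔ D
  have hAE : A ≤ E := le_sup_left
  have hDE : D ≤ E := le_sup_right
  letI actA : MulAction A V := MulAction.compHom V (Subgroup.inclusion hAE)
  have hadjA : ∀ (g : A) (u v : V), T.Adj u v → T.Adj (g • u) (g • v) := fun g u v h => hadj _ u v h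
  have hfA : ∃ x : V, ∀ g : A, g • x = x := hA V T hT hadjA fun g u => hinv _ u
  have hT' := Tr.fix_tree hT hadjA hfA
  letI actD : MulAction D {x : V | ∀ g : A, g • x = x} :=
    { smul := fun d x => ⟨(⟨d, hDE d.2⟩ : E) • x.1, fun a => by
        have h1 : (⟨a, hAE a.2⟩ : E) * ⟨d, hDE d.2⟩ = ⟨d, hDE d.2⟩ * ⟨a, hAE a.2⟩ :=
          Subtype.ext (hcomm a a.2 d d.2)
        show (⟨a, hAE a.2⟩ : E) • (⟨d, hDE d.2⟩ : E) • x.1 = (⟨d, hDE d.2⟩ : E) • x.1
        rw [← mul_smul, h1, mul_smul]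
        congr 1
        exact x.2 a⟩
      one_smul := fun x => Subtype.ext (one_smul E x.1)
      mul_smul := fun d d' x => Subtype.ext (mul_smul (⟨d, hDE d.2⟩ : E) ⟨d', hDE d'.2⟩ x.1) }
  obtain ⟨x, hx⟩ := hD _ _ hT' (fun g u v huv => hadj (⟨g, hDE g.2⟩ : E) u.1 v.1 huv)
    (fun g u huv => hinv (⟨g, hDE g.2⟩ : E) u.1 huv)
  refine ⟨x.1, fun g => ?_⟩
  -- the stabilizer contains both
  have h1 : A ⊔ D ≤ (MulAction.stabilizer E x.1).map E.subtype := by
    refine sup_le (fun a ha => ⟨⟨a, hAE ha⟩, ?_, rfl⟩) (fun d hd => ⟨⟨d, hDE hd⟩, ?_, rfl⟩)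
    · exact x.2 ⟨a, ha⟩
    · exact congrArg Subtype.val (hx ⟨d, hd⟩)
  obtain ⟨g', hg', hgg⟩ := h1 g.2
  have h2 : g' = g := Subtype.ext hgg
  rw [← h2]
  exact hg'

section gp

variable {M V : Type} [Group M] {Λ : SimpleGraph V} {B : V → Subgroup M} (h : IsGP Λ B)

/-- subgroups with FA of an amalgam -/
theorem amg_fa {G : Type} [Group G] {A D K : Subgroup G} (ha : Amg A D K) (F : Subgroup G) (hF : FA F) :
    ∃ m : G, (∀ x ∈ F, m⁻¹ * x * m ∈ A) ∨ ∀ x ∈ F, m⁻¹ * x * m ∈ D := by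
  obtain ⟨u, hu⟩ := hF _ _ (Tr.amg_tree ha)
    (fun g u v huv => Tr.amg_adj (A := A) (B := D) (g : G) u v huv)
    (fun g u => Tr.amg_noinv (A := A) (B := D) (g : G) u)
  rcases u with y | y
  · obtain ⟨m, rfl⟩ := QuotientGroup.mk_surjective y
    exact ⟨m, Or.inl fun x hx => Tr.amg_fix_left x m (hu ⟨x, hx⟩)⟩
  · obtain ⟨m, rfl⟩ := QuotientGroup.mk_surjective y
    exact ⟨m, Or.inr fun x hx => Tr.amg_fix_right x m (hu ⟨x, hx⟩)⟩

include h in
/-- **subgroups with FA are conjugate into cliques** -/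
theorem fa_clique (n : ℕ) : ∀ (S : Set V), S.Finite → S.ncard = n → ∀ (F : Subgroup M), FA F →
    (∀ x ∈ F, er h S x = x) → ∃ σ ⊆ S, (∀ u ∈ σ, ∀ v ∈ σ, u ≠ v → Λ.Adj u v) ∧
      ∃ m : M, ∀ x ∈ F, m⁻¹ * x * m ∈ (er h σ).range := by
  induction n using Nat.strong_induction_on with
  | _ n ih =>
  intro S hS hn F hFA hF
  by_cases hcl : ∀ u ∈ S, ∀ v ∈ S, u ≠ v → Λ.Adj u v
  · refine ⟨S, subset_rfl, hcl, 1, fun x hx => ?_⟩
    rw [inv_one, one_mul, mul_one]
    exact ⟨x, hF x hx⟩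
  push Not at hcl
  obtain ⟨u, hu, v, hv, huv, hadj⟩ := hcl
  -- one of the two vertices can be removed
  have step : ∀ w ∈ S, ∀ m : M, (∀ x ∈ F, m⁻¹ * x * m ∈ (er h {w}ᶜ).range) →
      ∃ σ ⊆ S, (∀ u ∈ σ, ∀ v ∈ σ, u ≠ v → Λ.Adj u v) ∧
      ∃ m : M, ∀ x ∈ F, m⁻¹ * x * m ∈ (er h σ).range := by
    intro w hw m hm
    let m1 := er h S m
    let S' : Set V := S \ {w}
    have hS' : S'.Finite := hS.sdiff
    have hlt : S'.ncard < n := by
      rw [← hn]
      exact Set.ncard_sdiff_singleton_lt_of_mem hw hS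
    have h1 : ∀ x ∈ F, er h S' (m1⁻¹ * x * m1) = m1⁻¹ * x * m1 := by
      intro x hx
      obtain ⟨y, hy⟩ := hm x hx
      have h2 : m1⁻¹ * x * m1 = er h S (er h {w}ᶜ y) := by
        rw [hy, map_mul, map_mul, map_inv, hF x hx]
      rw [h2, er_er h S {w}ᶜ y, er_er]
      exact congrArg (fun X => er h X y) (Set.inter_self (S ∩ {w}ᶜ))
    let F' : Subgroup M := F.map (MulAut.conj m1⁻¹).toMonoidHom
    obtain ⟨σ, hσ, hσ', m2, hm2⟩ := ih _ hlt S' hS' rfl F' (hFA.map_sub _) (by
      rintro _ ⟨x, hx, rfl⟩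
      have := h1 x hx
      show er h S' (m1⁻¹ * x * m1⁻¹⁻¹) = m1⁻¹ * x * m1⁻¹⁻¹
      rwa [inv_inv])
    refine ⟨σ, hσ.trans Set.sdiff_subset, hσ', m1 * m2, fun x hx => ?_⟩
    have h4 := hm2 (m1⁻¹ * x * m1) ⟨x, hx, by
      show m1⁻¹ * x * m1⁻¹⁻¹ = _
      rw [inv_inv]⟩
    have h5 : (m1 * m2)⁻¹ * x * (m1 * m2) = m2⁻¹ * (m1⁻¹ * x * m1) * m2 := by group
    rw [h5]
    exact h4
  obtain ⟨m, hm | hm⟩ := amg_fa (er_amg h huv hadj) F hFA
  · exact step u hu m hm
  · exact step v hv m hm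

include h in
theorem fa_range (hfa : ∀ v, FA (B v)) (σ : Set V) (hσf : σ.Finite)
    (hσ : ∀ u ∈ σ, ∀ v ∈ σ, u ≠ v → Λ.Adj u v) : FA (er h σ).range := by
  induction σ, hσf using Set.Finite.induction_on with
  | empty =>
    intro W T _ hT _ _
    haveI := hT.connected.nonempty
    refine ⟨Classical.arbitrary W, fun g => ?_⟩
    have h1 : g = 1 := by
      obtain ⟨_, x, rfl⟩ := g
      exact Subtype.ext (er_empty h x)
    rw [h1, one_smul]
  | @insert u S hu _ ih =>
    have ih' := ih fun a ha b hb hab => hσ a (Set.mem_insert_of_mem _ ha) b (Set.mem_insert_of_mem _ hb) hab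
    have hlk : ∀ v ∈ S, Λ.Adj u v := fun v hv => hσ u (Set.mem_insert u S) v (Set.mem_insert_of_mem _ hv)
      (fun hh => hu (hh ▸ hv))
    have h1 : (er h (insert u S)).range = (er h {u}).range ⊔ (er h S).range := by
      apply le_antisymm
      · rintro _ ⟨x, rfl⟩
        rw [er_split h hu hlk]
        exact mul_mem (Subgroup.mem_sup_left ⟨x, rfl⟩) (Subgroup.mem_sup_right ⟨x, rfl⟩)
      · refine sup_le ?_ ?_
        · exact range_le (er h) (er_er h) (by simp)
        · exact range_le (er h) (er_er h) (Set.subset_insert u S)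
    rw [h1]
    have h2 : (er h {u}).range = B u := le_antisymm (range_single h u) (le_range h (Set.mem_singleton u))
    refine FA.sup ?_ ih' ?_
    · rw [h2]; exact hfa u
    · rintro _ ⟨a, rfl⟩ _ ⟨b, rfl⟩
      exact er_comm h hlk a b

end gp

end Pool.Agent.X201.FJ
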