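import Pool.Agent.X201.RA.Axis

/-!
Finite groups acting on trees without inversions have fixed vertices.
-/

set_option autoImplicit false

namespace Pool.Agent.X201.FJ.Tr

open SimpleGraph

variable {V : Type} {T : SimpleGraph V}

theorem adj_dist (hT : T.IsTree) (o : V) {u v : V} (h : T.Adj u v) :
    T.dist u o = T.dist v o + 1 ∨ T.dist v o = T.dist u o + 1 := by
  have h1 := hT.dist_ne_of_adj o h
  have h2 := hT.connected.dist_triangle (u := o) (v := u) (w := v)
  have h3 := hT.connected.dist_triangle (u := o) (v := v) (w := u)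
  have h4 : T.dist u v = 1 := SimpleGraph.dist_eq_one_iff_adj.2 h
  rw [SimpleGraph.dist_comm (u := v) (v := u)] at h3
  rw [SimpleGraph.dist_comm (u := o) (v := u), SimpleGraph.dist_comm (u := o) (v := v)] at h1 h2 h3
  omega

theorem far (hT : T.IsTree) (o : V) (n : ℕ) : ∀ (x y m : V), T.dist x y = n + 1 → T.Adj x m →
    T.dist m y = n → T.dist m o = T.dist x o + 1 → T.dist y o = T.dist x o + (n + 1) := by
  induction n with
  | zero =>
    intro x y m _ _ hmy hmo
    have h1 : m = y := by
      have := (hT.connected m y).dist_eq_zero_iff.1 hmy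
      exact this
    rw [← h1, hmo]
  | succ n ih =>
    intro x y m hxy hxm hmy hmo
    -- the next vertex
    obtain ⟨m', hm', hd⟩ : ∃ m', T.Adj m m' ∧ T.dist m' y = n := by
      obtain ⟨p, hp⟩ := hT.connected.exists_walk_length_eq_dist m y
      cases p with
      | nil => rw [Walk.length_nil, hmy] at hp; omega
      | @cons _ w _ hadj q =>
        refine ⟨w, hadj, ?_⟩
        rw [Walk.length_cons, hmy] at hp
        have h1 : T.dist w y ≤ q.length := SimpleGraph.dist_le q
        have h2 := hT.connected.dist_triangle (u := m) (v := w) (w := y)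
        have h3 : T.dist m w = 1 := SimpleGraph.dist_eq_one_iff_adj.2 hadj
        omega
    have hne : m' ≠ x := by
      rintro rfl
      omega
    have h1 : T.dist m' o = T.dist m o + 1 := by
      rcases adj_dist hT o hm' with h | h
      · exfalso
        apply hne
        apply closer_unique hT o m m' x hm'.symm hxm
        · rw [SimpleGraph.dist_comm (u := o) (v := m'), SimpleGraph.dist_comm (u := o) (v := m)]
          omega
        · rw [SimpleGraph.dist_comm (u := o) (v := x), SimpleGraph.dist_comm (u := o) (v := m)]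
          omega
      · exact h
    have h2 := ih m y m' hmy hm' hd h1
    omega

variable {G : Type} [Group G] [MulAction G V]

theorem dist_smul (hT : T.IsTree) (hadj : ∀ (g : G) (u v : V), T.Adj u v → T.Adj (g • u) (g • v))
    (g : G) (u v : V) : T.dist (g • u) (g • v) = T.dist u v := by
  apply le_antisymm (dist_smul_le hT hadj g u v)
  have h1 := dist_smul_le hT hadj g⁻¹ (g • u) (g • v)
  rwa [inv_smul_smul, inv_smul_smul] at h1

/-- **finite groups fix a vertex** -/
theorem fin_fix [Finite G] (hT : T.IsTree)
    (hadj : ∀ (g : G) (u v : V), T.Adj u v → T.Adj (g • u) (g • v))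
    (hinv : ∀ (g : G) (u : V), ¬ T.Adj u (g • u)) : ∃ x : V, ∀ g : G, g • x = x := by
  classical
  have := Fintype.ofFinite G
  have hne : Nonempty V := hT.connected.nonempty
  let x0 : V := Classical.arbitrary V
  let r : V → ℕ := fun x => Finset.univ.sup fun f : G => T.dist x (f • x0)
  have hr : ∀ x (f : G), T.dist x (f • x0) ≤ r x := fun x f =>
    Finset.le_sup (f := fun f : G => T.dist x (f • x0)) (Finset.mem_univ f)
  have hex : ∃ k, ∃ x, r x = k := ⟨_, x0, rfl⟩
  obtain ⟨x, hx⟩ := Nat.find_spec hex
  have hmin : ∀ y, r x ≤ r y := fun y => by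
    rw [hx]
    exact Nat.find_min' hex ⟨y, rfl⟩
  refine ⟨x, fun h => ?_⟩
  by_contra hne
  have hd0 : T.dist x (h • x) ≠ 0 := by
    intro h0
    exact hne ((hT.connected x (h • x)).dist_eq_zero_iff.1 h0).symm
  have hd1 : T.dist x (h • x) ≠ 1 := by
    rw [Ne, SimpleGraph.dist_eq_one_iff_adj]
    exact hinv h x
  obtain ⟨n, hn⟩ : ∃ n, T.dist x (h • x) = n + 1 + 1 := ⟨T.dist x (h • x) - 2, by omega⟩
  obtain ⟨m, hm, hd⟩ : ∃ m, T.Adj x m ∧ T.dist m (h • x) = n + 1 := by
    obtain ⟨p, hp⟩ := hT.connected.exists_walk_length_eq_dist x (h • x)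
    generalize hy : h • x = y at p hp hn
    cases p with
    | nil => rw [Walk.length_nil, hn] at hp; omega
    | @cons _ w _ hadj' q =>
      refine ⟨w, hadj', ?_⟩
      rw [Walk.length_cons, hn] at hp
      have h1 : T.dist w y ≤ q.length := SimpleGraph.dist_le q
      have h2 := hT.connected.dist_triangle (u := x) (v := w) (w := y)
      have h3 : T.dist x w = 1 := SimpleGraph.dist_eq_one_iff_adj.2 hadj'
      omega
  have key : ∀ f : G, T.dist m (f • x0) + 1 ≤ r x := by
    intro f
    rcases adj_dist hT (f • x0) hm with h1 | h1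
    · have := hr x f
      omega
    · have h2 := far hT (f • x0) (n + 1) x (h • x) m hn hm hd h1
      have h3 : T.dist (h • x) (f • x0) = T.dist x ((h⁻¹ * f) • x0) := by
        rw [← dist_smul hT hadj h x ((h⁻¹ * f) • x0), ← mul_smul, mul_inv_cancel_left]
      have h4 := hr x (h⁻¹ * f)
      omega
  have h5 : r m + 1 ≤ r x := by
    have h6 : r m ≤ r x - 1 := Finset.sup_le fun f _ => by
      have := key f
      omega
    have := key 1
    omega
  have := hmin m
  omega

end Pool.Agent.X201.FJ.Tr
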