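import Pool.Agent.X201.FG.FinFix
import Pool.Agent.X201.RA.Gp
import Pool.Agent.X201.FJ.NGPFin

/-!
Graph products of finite groups: finite subgroups, and extensions with such kernels.
-/

set_option autoImplicit false

namespace Pool.Agent.X201.FJ

open Pool.Agent.Y110.FJ Pool.Agent.X176.FJ
open Pool.Agent.Y462.SS (Closed)
open SimpleGraph
open scoped Pointwise

section fin

variable {M V : Type} [Group M] {Λ : SimpleGraph V} {B : V → Subgroup M} (h : IsGP Λ B)

/-- finite subgroups of an amalgam -/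
theorem amg_fin {G : Type} [Group G] {A D K : Subgroup G} (ha : Amg A D K) (F : Subgroup G) [Finite F] :
    ∃ m : G, (∀ x ∈ F, m⁻¹ * x * m ∈ A) ∨ ∀ x ∈ F, m⁻¹ * x * m ∈ D := by
  obtain ⟨u, hu⟩ := Tr.fin_fix (G := F) (Tr.amg_tree ha)
    (fun g u v huv => Tr.amg_adj (A := A) (B := D) (g : G) u v huv)
    (fun g u => Tr.amg_noinv (A := A) (B := D) (g : G) u)
  rcases u with y | y
  · obtain ⟨m, rfl⟩ := QuotientGroup.mk_surjective y
    exact ⟨m, Or.inl fun x hx => Tr.amg_fix_left x m (hu ⟨x, hx⟩)⟩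
  · obtain ⟨m, rfl⟩ := QuotientGroup.mk_surjective y
    exact ⟨m, Or.inr fun x hx => Tr.amg_fix_right x m (hu ⟨x, hx⟩)⟩

include h in
/-- **finite subgroups are conjugate into cliques** -/
theorem fin_clique (n : ℕ) : ∀ (S : Set V), S.Finite → S.ncard = n → ∀ (F : Subgroup M) [Finite F],
    (∀ x ∈ F, er h S x = x) → ∃ σ ⊆ S, (∀ u ∈ σ, ∀ v ∈ σ, u ≠ v → Λ.Adj u v) ∧
      ∃ m : M, ∀ x ∈ F, m⁻¹ * x * m ∈ (er h σ).range := by
  induction n using Nat.strong_induction_on with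
  | _ n ih =>
  intro S hS hn F _ hF
  by_cases hcl : ∀ u ∈ S, ∀ v ∈ S, u ≠ v → Λ.Adj u v
  · refine ⟨S, subset_rfl, hcl, 1, fun x hx => ?_⟩
    rw [inv_one, one_mul, mul_one]
    exact ⟨x, hF x hx⟩
  push Not at hcl
  obtain ⟨u, hu, v, hv, huv, hadj⟩ := hcl
  -- one of the two vertices can be removed
  have step : ∀ w ∈ S, ∀ m : M, (∀ x ∈ F, m⁻¹ * x * m ∈ (er h {w}ᶜ).range) →
      ∃ σ ⊆ S, (∀ u ∈ σ, ∀ v ∈ σ, u ≠ v → Λ.Adj u v) ∧
      ∃ m : M, ∀ x ∈ F, m⁻¹ * x * m ∈ (er h σ).range := by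
    intro w hw m hm
    let m1 := er h S m
    let S' : Set V := S \ {w}
    have hS' : S'.Finite := hS.sdiff
    have hlt : S'.ncard < n := by
      rw [← hn]
      exact Set.ncard_sdiff_singleton_lt_of_mem hw hS
    have h1 : ∀ x ∈ F, er h S' (m1⁻¹ * x * m1) = m1⁻¹ * x * m1 := by
      intro x hx
      obtain ⟨y, hy⟩ := hm x hx
      have h2 : m1⁻¹ * x * m1 = er h S (er h {w}ᶜ y) := by
        rw [hy, map_mul, map_mul, map_inv, hF x hx]
      rw [h2, er_er h S {w}ᶜ y, er_er]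
      exact congrArg (fun X => er h X y) (Set.inter_self (S ∩ {w}ᶜ))
    let F' : Subgroup M := F.map (MulAut.conj m1⁻¹).toMonoidHom
    have hF'fin : Finite F' := by
      have : (F' : Set M).Finite := (Set.toFinite (F : Set M)).image _
      exact this.to_subtype
    obtain ⟨σ, hσ, hσ', m2, hm2⟩ := ih _ hlt S' hS' rfl F' (by
      rintro _ ⟨x, hx, rfl⟩
      have := h1 x hx
      show er h S' (m1⁻¹ * x * m1⁻¹⁻¹) = m1⁻¹ * x * m1⁻¹⁻¹
      rwa [inv_inv])
    refine ⟨σ, hσ.trans Set.sdiff_subset, hσ', m1 * m2, fun x hx => ?_⟩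
    have h4 := hm2 (m1⁻¹ * x * m1) ⟨x, hx, by
      show m1⁻¹ * x * m1⁻¹⁻¹ = _
      rw [inv_inv]⟩
    have h5 : (m1 * m2)⁻¹ * x * (m1 * m2) = m2⁻¹ * (m1⁻¹ * x * m1) * m2 := by group
    rw [h5]
    exact h4
  obtain ⟨m, hm | hm⟩ := amg_fin (er_amg h huv hadj) F
  · exact step u hu m hm
  · exact step v hv m hm

include h in
theorem range_single (v : V) : (er h {v}).range ≤ B v := by
  classical
  have h1 : (⊤ : Subgroup M) ≤ (B v).comap (er h {v}) := by
    rw [← h.gen]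
    apply iSup_le
    intro w x hx
    show er h {v} x ∈ B v
    by_cases hw : w = v
    · subst hw
      rw [er_mem h (Set.mem_singleton w) hx]
      exact hx
    · rw [er_not h (show w ∉ ({v} : Set V) from fun hh => hw hh) hx]
      exact one_mem _
  rintro _ ⟨x, rfl⟩
  exact h1 (Subgroup.mem_top x)

include h in
theorem clique_fin (hfin : ∀ v, Finite (B v)) (σ : Set V) (hσf : σ.Finite)
    (hσ : ∀ u ∈ σ, ∀ v ∈ σ, u ≠ v → Λ.Adj u v) : ((er h σ).range : Set M).Finite := by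
  induction σ, hσf using Set.Finite.induction_on with
  | empty =>
    refine (Set.finite_singleton (1 : M)).subset ?_
    rintro _ ⟨x, rfl⟩
    rw [er_empty]; rfl
  | @insert u S hu _ ih =>
    have ih' := ih fun a ha b hb hab => hσ a (Set.mem_insert_of_mem _ ha) b (Set.mem_insert_of_mem _ hb) hab
    have h1 : ((er h {u}).range : Set M).Finite :=
      (Set.toFinite (B u : Set M)).subset (range_single h u)
    refine (h1.mul ih').subset ?_
    rintro _ ⟨x, rfl⟩
    rw [er_split h hu (fun v hv => hσ u (Set.mem_insert u S) v (Set.mem_insert_of_mem _ hv)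
      (fun hh => hu (hh ▸ hv)))]
    exact Set.mul_mem_mul ⟨x, rfl⟩ ⟨x, rfl⟩

end fin

end Pool.Agent.X201.FJ
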