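import Pool.Agent.X201.FG.FA

/-!
Automorphisms of graph products of centreless directly indecomposable groups with FA.
-/

set_option autoImplicit false

namespace Pool.Agent.X201.FJ

open Pool.Agent.Y110.FJ Pool.Agent.X176.FJ
open SimpleGraph

/-- directly indecomposable: nontrivial, and not the direct product of two nontrivial subgroups -/
def Indec (A : Type) [Group A] : Prop :=
  Nontrivial A ∧ ∀ P Q : Subgroup A, (∀ p ∈ P, ∀ q ∈ Q, p * q = q * p) → P ⊓ Q = ⊥ → P ⊔ Q = ⊤ →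
    P = ⊥ ∨ Q = ⊥

section gp

variable {M V : Type} [Group M] {Λ : SimpleGraph V} {B : V → Subgroup M} (h : IsGP Λ B)

/-- cliques -/
def Clq (Λ : SimpleGraph V) (σ : Set V) : Prop := ∀ u ∈ σ, ∀ v ∈ σ, u ≠ v → Λ.Adj u v

theorem Clq.link {σ : Set V} (hσ : Clq Λ σ) {w : V} (hw : w ∈ σ) : ∀ v ∈ σ \ {w}, Λ.Adj w v :=
  fun v hv => hσ w hw v hv.1 fun hh => hv.2 hh.symm

include h in
theorem split_w {σ : Set V} (hσ : Clq Λ σ) {w : V} (hw : w ∈ σ) (x : M) :
    er h σ x = er h {w} x * er h (σ \ {w}) x := by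
  have h1 : insert w (σ \ {w}) = σ := by
    ext v
    constructor
    · rintro (rfl | hv)
      · exact hw
      · exact hv.1
    · intro hv
      by_cases hvw : v = w
      · exact Or.inl hvw
      · exact Or.inr ⟨hv, hvw⟩
  conv_lhs => rw [← h1]
  exact er_split h (fun hh => hh.2 rfl) (hσ.link hw) x

include h in
theorem er_trivial [Finite V] {σ : Set V} (hσ : Clq Λ σ) (z : M) (hz : ∀ u ∈ σ, er h {u} z = 1) :
    er h σ z = 1 := by
  have key : ∀ (S : Set V), S.Finite → S ⊆ σ → er h S z = 1 := by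
    intro S hS
    induction S, hS using Set.Finite.induction_on with
    | empty => intro _; exact er_empty h z
    | @insert u S hu _ ih =>
      intro hSσ
      have huσ : u ∈ σ := hSσ (Set.mem_insert u S)
      have hS' : S ⊆ σ := fun v hv => hSσ (Set.mem_insert_of_mem _ hv)
      rw [er_split h hu (fun v hv => hσ u huσ v (hS' hv) fun hh => hu (hh ▸ hv)), hz u huσ, ih hS',
        one_mul]
  exact key σ (Set.toFinite σ) subset_rfl

include h in
theorem er_mem_single (w : V) (x : M) : er h {w} x ∈ B w := range_single h w ⟨x, rfl⟩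

include h in
theorem fix_range {σ : Set V} {x : M} (hx : x ∈ (er h σ).range) : er h σ x = x := by
  obtain ⟨y, rfl⟩ := hx
  rw [er_er, Set.inter_self]

include h in
theorem single_range {w : V} {σ : Set V} (hw : w ∉ σ) {x : M} (hx : x ∈ (er h σ).range) :
    er h {w} x = 1 := by
  obtain ⟨y, rfl⟩ := hx
  rw [er_er]
  have h1 : ({w} : Set V) ∩ σ = ∅ := by
    ext v
    constructor
    · rintro ⟨hv, hv'⟩
      rw [Set.mem_singleton_iff.1 hv] at hv'
      exact absurd hv' hw
    · intro hv; exact absurd hv (Set.notMem_empty v)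
  rw [h1, er_empty]

include h in
/-- the parabolic subgroups of cliques are centreless -/
theorem range_centreless [Finite V] (hcl : ∀ v, ∀ a ∈ B v, (∀ b ∈ B v, a * b = b * a) → a = 1)
    {σ : Set V} (hσ : Clq Λ σ) {z : M} (hz : z ∈ (er h σ).range)
    (hcomm : ∀ y ∈ (er h σ).range, z * y = y * z) : z = 1 := by
  rw [← fix_range h hz]
  apply er_trivial h hσ
  intro u hu
  apply hcl u _ (er_mem_single h u z)
  intro b hb
  have h1 := congrArg (er h {u}) (hcomm b (le_range h hu hb))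
  rwa [map_mul, map_mul, er_mem h (Set.mem_singleton u) hb] at h1

include h in
/-- one factor goes into one factor -/
theorem factor_le [Finite V] (hcl : ∀ v, ∀ a ∈ B v, (∀ b ∈ B v, a * b = b * a) → a = 1)
    (hind : ∀ v, Indec (B v)) {σ τ : Set V} (hσ : Clq Λ σ) (hτ : Clq Λ τ) (θ : M ≃* M)
    (h1 : ∀ x ∈ (er h σ).range, θ x ∈ (er h τ).range)
    (h2 : ∀ y ∈ (er h τ).range, θ.symm y ∈ (er h σ).range) {u : V} (hu : u ∈ σ) :
    ∃ w ∈ τ, ∀ x ∈ B u, θ x ∈ B w := by
  -- the projections preserve the image of the factor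
  have key : ∀ w ∈ τ, ∀ x ∈ B u, ∃ p ∈ B u, θ p = er h {w} (θ x) := by
    intro w hw x hx
    let s := θ.symm (er h {w} (θ x))
    have hs : s ∈ (er h σ).range := h2 _ (le_range h hw (er_mem_single h w _))
    have hsplit : s = er h {u} s * er h (σ \ {u}) s := by
      rw [← split_w h hσ hu, fix_range h hs]
    -- `er {w} (θ x)` commutes with the image of the other factors
    have hc1 : ∀ y ∈ (er h (σ \ {u})).range, s * y = y * s := by
      intro y hy
      have hyσ : y ∈ (er h σ).range := range_le (er h) (er_er h) Set.sdiff_subset hy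
      have hxy : x * y = y * x := by
        have e1 : x = er h {u} x := (er_mem h (Set.mem_singleton u) hx).symm
        have e2 : y = er h (σ \ {u}) y := (fix_range h hy).symm
        rw [e1, e2]
        exact er_comm h (hσ.link hu) x y
      have hxy' : θ x * θ y = θ y * θ x := by rw [← map_mul, hxy, map_mul]
      have hy' : θ y = er h {w} (θ y) * er h (τ \ {w}) (θ y) := by
        rw [← split_w h hτ hw, fix_range h (h1 y hyσ)]
      have e3 : er h {w} (θ x) * er h {w} (θ y) = er h {w} (θ y) * er h {w} (θ x) := by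
        rw [← map_mul, hxy', map_mul]
      have e4 : er h {w} (θ x) * er h (τ \ {w}) (θ y) = er h (τ \ {w}) (θ y) * er h {w} (θ x) :=
        er_comm h (hτ.link hw) (θ x) (θ y)
      have e5 : er h {w} (θ x) * θ y = θ y * er h {w} (θ x) := by
        rw [hy', ← mul_assoc, e3, mul_assoc, e4, mul_assoc]
      apply θ.injective
      rw [map_mul, map_mul, MulEquiv.apply_symm_apply]
      exact e5
    have hσu : Clq Λ (σ \ {u}) := fun a ha b hb hab => hσ a ha.1 b hb.1 hab
    have hz : er h (σ \ {u}) s = 1 := by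
      apply range_centreless h hcl hσu ⟨s, rfl⟩
      intro y hy
      have e1 := hc1 y hy
      have e2 : er h {u} s * y = y * er h {u} s := by
        have e3 : y = er h (σ \ {u}) y := (fix_range h hy).symm
        rw [e3]
        exact er_comm h (hσ.link hu) s y
      have e4 : er h (σ \ {u}) s = (er h {u} s)⁻¹ * s := by
        rw [eq_inv_mul_iff_mul_eq]
        exact hsplit.symm
      rw [e4, mul_assoc, e1, ← mul_assoc, ← mul_assoc]
      congr 1
      rw [inv_mul_eq_iff_eq_mul, ← mul_assoc, e2, mul_inv_cancel_right]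
    refine ⟨s, ?_, MulEquiv.apply_symm_apply θ _⟩
    rw [hz, mul_one] at hsplit
    rw [hsplit]
    exact er_mem_single h u s
  -- a factor which is met
  obtain ⟨hnt, hdec⟩ := hind u
  obtain ⟨b0, hb0⟩ := exists_ne (1 : B u)
  have hex : ∃ w ∈ τ, er h {w} (θ (b0 : M)) ≠ 1 := by
    by_contra hcon
    have h3 : er h τ (θ (b0 : M)) = 1 := by
      apply er_trivial h hτ
      intro w hw
      by_contra h4
      exact hcon ⟨w, hw, h4⟩
    rw [fix_range h (h1 _ (le_range h hu b0.2))] at h3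
    apply hb0
    apply Subtype.ext
    exact (MulEquiv.map_eq_one_iff θ).1 h3
  obtain ⟨w, hw, hne⟩ := hex
  refine ⟨w, hw, ?_⟩
  let P : Subgroup (B u) := ((B w).comap θ.toMonoidHom).subgroupOf (B u)
  let Q : Subgroup (B u) := (((er h (τ \ {w})).range).comap θ.toMonoidHom).subgroupOf (B u)
  have hP : ∀ b : B u, b ∈ P ↔ θ b ∈ B w := fun b => Iff.rfl
  have hQ : ∀ b : B u, b ∈ Q ↔ θ b ∈ (er h (τ \ {w})).range := fun b => Iff.rfl
  have hsum : ∀ b : B u, ∃ p ∈ P, ∃ q ∈ Q, b = p * q ∧ θ (p : M) = er h {w} (θ b) := by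
    intro b
    obtain ⟨p, hp, hpe⟩ := key w hw b b.2
    refine ⟨⟨p, hp⟩, ?_, ⟨p, hp⟩⁻¹ * b, ?_, ?_, hpe⟩
    · rw [hP]
      show θ p ∈ B w
      rw [hpe]
      exact er_mem_single h w _
    · rw [hQ]
      show θ (p⁻¹ * b) ∈ _
      rw [map_mul, map_inv, hpe]
      have h4 : θ b = er h {w} (θ b) * er h (τ \ {w}) (θ b) := by
        rw [← split_w h hτ hw, fix_range h (h1 _ (le_range h hu b.2))]
      rw [inv_mul_eq_iff_eq_mul.2 h4]
      exact ⟨_, rfl⟩
    · rw [mul_inv_cancel_left]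
  have hPQ := hdec P Q (by
    intro p hp q hq
    apply Subtype.ext
    apply θ.injective
    show θ ((p : M) * q) = θ ((q : M) * p)
    rw [map_mul, map_mul]
    have e1 : θ (p : M) = er h {w} (θ (p : M)) := (er_mem h (Set.mem_singleton w) hp).symm
    have e2 : θ (q : M) = er h (τ \ {w}) (θ (q : M)) := (fix_range h hq).symm
    rw [e1, e2]
    exact er_comm h (hτ.link hw) _ _) (by
    rw [eq_bot_iff]
    rintro b ⟨hb1, hb2⟩
    rw [Subgroup.mem_bot]
    have e1 : er h {w} (θ (b : M)) = θ b := er_mem h (Set.mem_singleton w) hb1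
    have e2 : er h {w} (θ (b : M)) = 1 := single_range h (fun hh => hh.2 rfl) hb2
    apply Subtype.ext
    exact (MulEquiv.map_eq_one_iff θ).1 (e1.symm.trans e2)) (by
    rw [eq_top_iff]
    intro b _
    obtain ⟨p, hp, q, hq, hb, -⟩ := hsum b
    rw [hb]
    exact mul_mem (Subgroup.mem_sup_left hp) (Subgroup.mem_sup_right hq))
  have hPne : P ≠ ⊥ := by
    intro hbot
    obtain ⟨p, hp, q, hq, hb, hpe⟩ := hsum b0
    rw [hbot, Subgroup.mem_bot] at hp
    rw [hp] at hpe
    apply hne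
    rw [← hpe]
    exact map_one θ
  have hQ0 : Q = ⊥ := hPQ.resolve_left hPne
  intro x hx
  obtain ⟨p, hp, q, hq, hb, -⟩ := hsum ⟨x, hx⟩
  rw [hQ0, Subgroup.mem_bot] at hq
  rw [hq, mul_one] at hb
  have h5 : x = p := congrArg Subtype.val hb
  rw [h5]
  exact hp

include h in
/-- **automorphisms permute the conjugacy classes of the factors** -/
theorem perm_class [Finite V] (hfa : ∀ v, FA (B v))
    (hcl : ∀ v, ∀ a ∈ B v, (∀ b ∈ B v, a * b = b * a) → a = 1)
    (hind : ∀ v, Indec (B v)) (ψ : M ≃* M) (u : V) :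
    ∃ (w : V) (m : M), ∀ x, x ∈ B u ↔ m⁻¹ * ψ x * m ∈ B w := by
  classical
  -- maximal cliques
  have hmax : ∀ σ0 : Set V, Clq Λ σ0 → ∃ σ, σ0 ⊆ σ ∧ Clq Λ σ ∧ ∀ ρ, Clq Λ ρ → σ ⊆ ρ → ρ = σ := by
    intro σ0 h0
    obtain ⟨σ, hσ0, hσ⟩ := (Set.toFinite {σ : Set V | Clq Λ σ}).exists_le_maximal h0
    exact ⟨σ, hσ0, hσ.prop, fun ρ hρ hle => (hσ.eq_of_le hρ hle).symm⟩
  -- automorphisms map the subgroups of cliques into such subgroups
  have hmapC : ∀ (φ : M ≃* M) (σ : Set V), Clq Λ σ → ∃ (τ : Set V) (m : M), Clq Λ τ ∧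
      ∀ x ∈ (er h σ).range, m⁻¹ * φ x * m ∈ (er h τ).range := by
    intro φ σ hσ
    have h1 : FA ((er h σ).range.map φ.toMonoidHom) := (fa_range h hfa σ (Set.toFinite σ) hσ).map_sub _
    have huniv : er h Set.univ = MonoidHom.id M := by
      apply ext_gp h
      intro w y hy
      rw [er_mem h (Set.mem_univ w) hy]
      rfl
    obtain ⟨τ, -, hτ, m, hm⟩ := fa_clique h _ Set.univ (Set.toFinite _) rfl _ h1 (fun x _ => by
      rw [huniv]; rfl)
    exact ⟨τ, m, hτ, fun x hx => hm (φ x) ⟨x, hx, rfl⟩⟩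
  have hmono : ∀ {S T : Set V}, S ⊆ T → (er h S).range ≤ (er h T).range :=
    fun hST => range_le (er h) (er_er h) hST
  obtain ⟨σ, hσu, hσ, hσmax⟩ := hmax {u} (by
    intro a ha b hb hab
    rw [Set.mem_singleton_iff.1 ha, Set.mem_singleton_iff.1 hb] at hab
    exact absurd rfl hab)
  have huσ : u ∈ σ := hσu (Set.mem_singleton u)
  obtain ⟨τ0, m, hτ0, hm0⟩ := hmapC ψ σ hσ
  obtain ⟨τ, hττ, hτ, -⟩ := hmax τ0 hτ0
  have hm : ∀ x ∈ (er h σ).range, m⁻¹ * ψ x * m ∈ (er h τ).range := fun x hx => hmono hττ (hm0 x hx)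
  obtain ⟨ρ, k, hρ, hk⟩ := hmapC ψ.symm τ hτ
  let K : M := ψ.symm m * k
  have hK : ∀ x ∈ (er h σ).range, K⁻¹ * x * K ∈ (er h ρ).range := by
    intro x hx
    have h1 := hk _ (hm x hx)
    have h2 : k⁻¹ * ψ.symm (m⁻¹ * ψ x * m) * k = K⁻¹ * x * K := by
      show _ = (ψ.symm m * k)⁻¹ * x * (ψ.symm m * k)
      rw [map_mul, map_mul, map_inv, MulEquiv.symm_apply_apply]
      group
    rwa [h2] at h1
  have hσρ : σ ⊆ ρ := by
    intro v hv
    by_contra hvρ
    obtain ⟨hnt, -⟩ := hind v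
    obtain ⟨b, hb⟩ := exists_ne (1 : B v)
    have h1 := hK b (le_range h hv b.2)
    have h2 := single_range h hvρ h1
    rw [map_mul, map_mul, map_inv, er_mem h (Set.mem_singleton v) b.2] at h2
    apply hb
    apply Subtype.ext
    have h3 : (b : M) = er h {v} K * ((er h {v} K)⁻¹ * b * er h {v} K) * (er h {v} K)⁻¹ := by group
    rw [h3, h2]
    simp
  have hρσ : ρ = σ := hσmax ρ hρ hσρ
  subst hρσ
  -- `K` normalizes
  have hK' : ∀ y ∈ (er h ρ).range, K * y * K⁻¹ ∈ (er h ρ).range := by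
    intro y hy
    let e := er h ρ K
    have he : e ∈ (er h ρ).range := ⟨K, rfl⟩
    let x := e * y * e⁻¹
    have hx : x ∈ (er h ρ).range := mul_mem (mul_mem he hy) (inv_mem he)
    have h1 := fix_range h (hK x hx)
    rw [map_mul, map_mul, map_inv, fix_range h hx] at h1
    have h2 : K⁻¹ * x * K = y := by
      rw [← h1]
      show (er h ρ K)⁻¹ * (er h ρ K * y * (er h ρ K)⁻¹) * er h ρ K = y
      group
    have h3 : K * y * K⁻¹ = x := by
      rw [← h2]; group
    rw [h3]
    exact hx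
  let θ : M ≃* M := ψ.trans (MulAut.conj m⁻¹)
  have hθ : ∀ x, θ x = m⁻¹ * ψ x * m := by
    intro x
    show m⁻¹ * ψ x * m⁻¹⁻¹ = _
    rw [inv_inv]
  have h1 : ∀ x ∈ (er h ρ).range, θ x ∈ (er h τ).range := by
    intro x hx
    rw [hθ]
    exact hm x hx
  have h2 : ∀ y ∈ (er h τ).range, θ.symm y ∈ (er h ρ).range := by
    intro y hy
    have h3 : θ.symm y = K * (k⁻¹ * ψ.symm y * k) * K⁻¹ := by
      rw [MulEquiv.symm_apply_eq, hθ]
      show y = m⁻¹ * ψ (ψ.symm m * k * (k⁻¹ * ψ.symm y * k) * (ψ.symm m * k)⁻¹) * m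
      have h4 : ψ.symm m * k * (k⁻¹ * ψ.symm y * k) * (ψ.symm m * k)⁻¹ =
          ψ.symm m * ψ.symm y * (ψ.symm m)⁻¹ := by group
      rw [h4, map_mul, map_mul, map_inv, MulEquiv.apply_symm_apply, MulEquiv.apply_symm_apply]
      group
    rw [h3]
    exact hK' _ (hk y hy)
  obtain ⟨w, hw, hle⟩ := factor_le h hcl hind hσ hτ θ h1 h2 huσ
  obtain ⟨u', hu', hle'⟩ := factor_le h hcl hind hτ hσ θ.symm h2 (fun x hx => by
    rw [MulEquiv.symm_symm]; exact h1 x hx) hw
  have huu : u' = u := by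
    by_contra hne
    obtain ⟨hnt, -⟩ := hind u
    obtain ⟨b, hb⟩ := exists_ne (1 : B u)
    have h3 := hle' _ (hle b b.2)
    rw [MulEquiv.symm_apply_apply] at h3
    have h4 : er h {u} (b : M) = 1 := er_not h (show u' ∉ ({u} : Set _) from fun hh => hne hh) h3
    rw [er_mem h (Set.mem_singleton u) b.2] at h4
    exact hb (Subtype.ext h4)
  rw [huu] at hle'
  refine ⟨w, m, fun x => ⟨fun hx => ?_, fun hx => ?_⟩⟩
  · rw [← hθ]; exact hle x hx
  · rw [← hθ] at hx
    have h3 := hle' _ hx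
    rwa [MulEquiv.symm_apply_apply] at h3

end gp

end Pool.Agent.X201.FJ
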