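import Pool.Agent.X201.FG.KS
import Pool.Agent.X201.FJ.NGPFin

/-!
Extensions of graph products of centreless directly indecomposable groups with FA.
-/

set_option autoImplicit false

namespace Pool.Agent.X201.FJ

open Pool.Agent.Y110.FJ Pool.Agent.X176.FJ
open SimpleGraph
open scoped Pointwise

/-- **extensions of graph products of centreless directly indecomposable groups with FA** -/
theorem ngp_fa {C : ∀ (G : Type) [Group G], Prop} (hC : ClosedE C)
    (hFK : ∀ (H : Type) [Group H] (K : Subgroup H) [K.Normal], IsFreeGroup K → C (H ⧸ K) → C H)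
    {G V : Type} [Group G] [Finite V] (N : Subgroup G) [N.Normal] (Λ : SimpleGraph V)
    (B : V → Subgroup N) (h : IsGP Λ B) (hfa : ∀ v, FA (B v))
    (hcl : ∀ v, ∀ a ∈ B v, (∀ b ∈ B v, a * b = b * a) → a = 1)
    (hind : ∀ v, Indec (B v)) (hQ : C (G ⧸ N))
    (hv : ∀ (v : V) (x : G), MulAut.conj x • (B v).map N.subtype = (B v).map N.subtype →
      C ((B v).map N.subtype ⊔ Subgroup.zpowers x : Subgroup G)) : C G := by
  refine ngp hC hFK N Λ B h ?_ (Or.inl ‹Finite V›) hQ hv
  intro g v
  obtain ⟨w, m, hm⟩ := perm_class h hfa hcl hind (MulAut.conjNormal g : N ≃* N) v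
  refine ⟨w, m, ?_⟩
  ext y
  rw [Subgroup.mem_pointwise_smul_iff_inv_smul_mem, Subgroup.mem_pointwise_smul_iff_inv_smul_mem]
  constructor
  · rintro ⟨x, hx, hxy⟩
    have h1 := (hm x).1 hx
    refine ⟨_, h1, ?_⟩
    have h2 : (x : G) = g⁻¹ * y * g := by
      rw [show (x : G) = N.subtype x from rfl, hxy]
      rfl
    show (m : G)⁻¹ * ((MulAut.conjNormal g x : N) : G) * m = (m : G)⁻¹ * y * (m : G)
    rw [MulAut.conjNormal_apply, h2]
    group
  · rintro ⟨z, hz, hzy⟩
    have h2 : (z : G) = (m : G)⁻¹ * y * m := by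
      rw [show (z : G) = N.subtype z from rfl, hzy]
      rfl
    let x : N := (MulAut.conjNormal g : N ≃* N).symm (m * z * m⁻¹)
    have hx : m⁻¹ * (MulAut.conjNormal g : N ≃* N) x * m = z := by
      rw [MulEquiv.apply_symm_apply]
      group
    refine ⟨x, (hm x).2 (by rw [hx]; exact hz), ?_⟩
    have h3 : ((MulAut.conjNormal g x : N) : G) = m * z * (m : G)⁻¹ := by
      show (((MulAut.conjNormal g : N ≃* N) x : N) : G) = _
      rw [MulEquiv.apply_symm_apply]
      rfl
    rw [MulAut.conjNormal_apply] at h3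
    show (x : G) = g⁻¹ * y * g
    have h4 : (x : G) = g⁻¹ * (m * z * (m : G)⁻¹) * g := by rw [← h3]; group
    rw [h4, h2]
    group

end Pool.Agent.X201.FJ
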