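import Pool.Agent.X201.FG.GPFin

/-!
Extensions whose kernel is a graph product of finite groups.
-/

set_option autoImplicit false

namespace Pool.Agent.X201.FJ

open Pool.Agent.Y110.FJ Pool.Agent.X176.FJ
open Pool.Agent.Y462.SS (Closed)
open SimpleGraph
open scoped Pointwise

variable {C : ∀ (G : Type) [Group G], Prop}

/-- **normal graph products with finitely many conjugacy classes of factors** -/
theorem ngp_cls (hC : ClosedE C) (hFK : FrKer C) {G V : Type} [Group G] [Finite V] (N : Subgroup G)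
    [hN : N.Normal] (Λ : SimpleGraph V) (B : V → Subgroup N) (h : IsGP Λ B) {S : Type} [Finite S]
    (Fm : S → Subgroup G)
    (hrep : ∀ (g : G) (v : V), ∃ (s : S) (n : N),
      MulAut.conj g • (B v).map N.subtype = MulAut.conj (n : G) • Fm s)
    (hQ : C (G ⧸ N))
    (hv : ∀ (v : V) (x : G), MulAut.conj x • (B v).map N.subtype = (B v).map N.subtype →
      C ((B v).map N.subtype ⊔ Subgroup.zpowers x : Subgroup G)) : C G := by
  classical
  let H : V → Subgroup G := fun v => (B v).map N.subtype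
  let G' : Subgroup G :=
    { carrier := {g | ∀ v, ∃ n : N, MulAut.conj g • H v = MulAut.conj (n : G) • H v}
      one_mem' := fun v => ⟨1, rfl⟩
      mul_mem' := by
        intro a b ha hb v
        obtain ⟨n, hn⟩ := ha v
        obtain ⟨m, hm⟩ := hb v
        refine ⟨⟨a * m * a⁻¹, hN.conj_mem m m.2 a⟩ * n, ?_⟩
        rw [map_mul, mul_smul, hm]
        show MulAut.conj a • MulAut.conj (m : G) • H v =
          MulAut.conj (a * m * a⁻¹ * (n : G)) • H v
        rw [map_mul _ (a * m * a⁻¹), mul_smul, ← hn, ← mul_smul, ← mul_smul, ← map_mul, ← map_mul,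
          inv_mul_cancel_right]
      inv_mem' := by
        intro a ha v
        obtain ⟨n, hn⟩ := ha v
        have h2 := hN.conj_mem (n : G)⁻¹ (N.inv_mem n.2) a⁻¹
        rw [inv_inv] at h2
        refine ⟨⟨a⁻¹ * (n : G)⁻¹ * a, h2⟩, ?_⟩
        show MulAut.conj a⁻¹ • H v = MulAut.conj (a⁻¹ * (n : G)⁻¹ * a) • H v
        rw [map_mul _ (a⁻¹ * (n : G)⁻¹), mul_smul, hn, ← mul_smul, ← map_mul,
          inv_mul_cancel_right] }
  have hG' : ∀ g : G, g ∈ G' ↔ ∀ v, ∃ n : N, MulAut.conj g • H v = MulAut.conj (n : G) • H v :=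
    fun _ => Iff.rfl
  have hNG : N ≤ G' := fun n hn v => ⟨⟨n, hn⟩, rfl⟩
  have hfi : G'.FiniteIndex := by
    choose wf nf hwf using hrep
    have hinj : Function.Injective (fun x : G ⧸ G' => (fun v => wf x.out v : V → S)) := by
      intro x y hxy
      have h1 : ∀ v, wf x.out v = wf y.out v := fun v => congrFun hxy v
      rw [← QuotientGroup.out_eq' x, ← QuotientGroup.out_eq' y]
      refine QuotientGroup.eq.2 ?_
      rw [hG']
      intro v
      have h2 := hwf x.out v
      have h3 := hwf y.out v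
      rw [← h1 v] at h3
      have h4 := hN.conj_mem _ (N.mul_mem (nf y.out v).2 (N.inv_mem (nf x.out v).2)) (x.out)⁻¹
      rw [inv_inv] at h4
      refine ⟨⟨_, h4⟩, ?_⟩
      show MulAut.conj (x.out⁻¹ * y.out) • H v = MulAut.conj
        (x.out⁻¹ * ((nf y.out v : G) * (nf x.out v : G)⁻¹) * x.out) • H v
      have h5 : MulAut.conj (x.out⁻¹ * y.out) • H v =
          MulAut.conj (x.out⁻¹ * (nf y.out v : G)) • Fm (wf x.out v) := by
        rw [map_mul, mul_smul]
        show MulAut.conj x.out⁻¹ • MulAut.conj y.out • (B v).map N.subtype = _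
        rw [h3, ← mul_smul, ← map_mul]
      have h6 : MulAut.conj (x.out⁻¹ * ((nf y.out v : G) * (nf x.out v : G)⁻¹) * x.out) • H v =
          MulAut.conj (x.out⁻¹ * (nf y.out v : G)) • Fm (wf x.out v) := by
        rw [map_mul, mul_smul]
        show MulAut.conj (x.out⁻¹ * ((nf y.out v : G) * (nf x.out v : G)⁻¹)) • MulAut.conj x.out •
          (B v).map N.subtype = _
        rw [h2, ← mul_smul, ← map_mul]
        have h7 : x.out⁻¹ * ((nf y.out v : G) * (nf x.out v : G)⁻¹) * (nf x.out v : G) =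
            x.out⁻¹ * (nf y.out v : G) := by group
        rw [h7]
      rw [h5, h6]
    have : Finite (G ⧸ G') := Finite.of_injective _ hinj
    exact Subgroup.finiteIndex_of_finite_quotient
  refine hC.base.finiteIndex G G' hfi ?_
  let ι : N →* G' := Subgroup.inclusion hNG
  let π : G' →* G ⧸ N := (QuotientGroup.mk' N).comp G'.subtype
  have hBι : ∀ v, ((B v).map ι).map G'.subtype = H v := by
    intro v
    rw [Subgroup.map_map]
    rfl
  refine ngp_col hC hFK h (ι := ι) (Subgroup.inclusion_injective hNG) (π := π) ?_ hQ (Nat.card V)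
    (fun v => (Finite.equivFin V v : ℕ)) (fun v => (Finite.equivFin V v).2) ?_ ?_ ?_
  · ext x
    rw [MonoidHom.mem_ker]
    constructor
    · intro hx
      exact ⟨⟨x, (QuotientGroup.eq_one_iff (x : G)).1 hx⟩, rfl⟩
    · rintro ⟨n, rfl⟩
      exact (QuotientGroup.eq_one_iff (n : G)).2 n.2
  · intro u v huv hh
    exact huv.ne ((Finite.equivFin V).injective (Fin.ext hh))
  · intro g v
    obtain ⟨n, hn⟩ := (hG' g).1 g.2 v
    refine ⟨v, rfl, n, ?_⟩
    apply Subgroup.map_injective G'.subtype_injective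
    rw [conj_map, conj_map, hBι]
    exact hn
  · intro v x hx
    have h1 : MulAut.conj (x : G) • H v = H v := by
      have h2 := congrArg (Subgroup.map G'.subtype) hx
      rw [conj_map, hBι] at h2
      exact h2
    refine c_map hC.base _ (c_sub hC.base ?_ (hv v x h1))
    rw [Subgroup.map_sup, hBι, MonoidHom.map_zpowers]
    exact le_rfl

/-- a finite group and a cyclic group which normalizes it -/
theorem c_fin_cyc (hC : ClosedE C) {G : Type} [Group G] (K : Subgroup G) [Finite K] (x : G)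
    (hx : MulAut.conj x • K = K) : C (K ⊔ Subgroup.zpowers x : Subgroup G) := by
  have hn : Subgroup.zpowers x ≤ Subgroup.normalizer (K : Set G) := by
    rw [Subgroup.zpowers_le]
    rw [Subgroup.mem_normalizer_iff]
    intro y
    constructor
    · intro hy
      have h1 : x * y * x⁻¹ ∈ MulAut.conj x • K := ⟨y, hy, rfl⟩
      rwa [hx] at h1
    · intro hy
      have h1 : x * y * x⁻¹ ∈ MulAut.conj x • K := by rw [hx]; exact hy
      obtain ⟨z, hz, hzy⟩ := h1
      have h2 : x * z * x⁻¹ = x * y * x⁻¹ := hzy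
      have h3 : z = y := by simpa using h2
      rwa [← h3]
  let D : Subgroup G := K ⊔ Subgroup.zpowers x
  have hZD : Subgroup.zpowers x ≤ D := le_sup_right
  let Z : Subgroup D := (Subgroup.zpowers x).subgroupOf D
  have hcos : ∀ d : D, ∃ k : K, ((⟨k, Subgroup.mem_sup_left k.2⟩ : D) : D ⧸ Z) = (d : D ⧸ Z) := by
    intro d
    have h1 : (d : G) ∈ (K : Set G) * (Subgroup.zpowers x : Set G) := by
      rw [← Subgroup.coe_mul_of_right_le_normalizer_left K (Subgroup.zpowers x) hn]
      exact d.2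
    obtain ⟨k, hk, z, hz, hkz⟩ := h1
    refine ⟨⟨k, hk⟩, ?_⟩
    rw [QuotientGroup.eq, Subgroup.mem_subgroupOf]
    show k⁻¹ * (d : G) ∈ Subgroup.zpowers x
    have h2 : k⁻¹ * (d : G) = z := by
      rw [← hkz]
      simp
    rw [h2]
    exact hz
  have hfin : Finite (D ⧸ Z) := by
    refine Finite.of_surjective (fun k : K => ((⟨k, Subgroup.mem_sup_left k.2⟩ : D) : D ⧸ Z)) ?_
    intro y
    obtain ⟨d, rfl⟩ := QuotientGroup.mk_surjective y
    exact hcos d
  have hfi : Z.FiniteIndex := Subgroup.finiteIndex_of_finite_quotient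
  refine hC.base.finiteIndex D Z hfi ?_
  refine c_map hC.base _ (c_sub hC.base (B := Subgroup.zpowers x) ?_ (c_cyclic hC.base))
  rintro _ ⟨z, hz, rfl⟩
  exact hz

/-- **extensions whose kernel is a graph product of finite groups over a finite graph** -/
theorem gp_finite (hC : ClosedE C) (hFK : FrKer C) {G V : Type} [Group G] [Finite V] (N : Subgroup G)
    [hN : N.Normal] (Λ : SimpleGraph V) (B : V → Subgroup N) (h : IsGP Λ B)
    (hfin : ∀ v, Finite (B v)) (hQ : C (G ⧸ N)) : C G := by
  classical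
  -- the subgroups of the cliques
  let 𝓢 : Set (Subgroup N) := ⋃ σ ∈ {σ : Set V | ∀ u ∈ σ, ∀ v ∈ σ, u ≠ v → Λ.Adj u v},
    {K : Subgroup N | (K : Set N) ⊆ (er h σ).range}
  have h𝓢 : 𝓢.Finite := by
    refine Set.Finite.biUnion (Set.toFinite _) ?_
    intro σ hσ
    have h1 := clique_fin h hfin σ (Set.toFinite σ) hσ
    refine Set.Finite.of_finite_image (f := fun K : Subgroup N => (K : Set N)) ?_
      SetLike.coe_injective.injOn
    refine h1.finite_subsets.subset ?_
    rintro _ ⟨K, hK, rfl⟩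
    exact hK
  have : Finite 𝓢 := h𝓢.to_subtype
  refine ngp_cls hC hFK N Λ B h (S := 𝓢) (fun K => K.1.map N.subtype) ?_ hQ ?_
  · intro g v
    -- the conjugate, as a subgroup of `N`
    let ψ : N →* N := (MulAut.conjNormal g : MulAut N).toMonoidHom
    let F : Subgroup N := (B v).map ψ
    have hFfin : Finite F := by
      have h1 : (F : Set N).Finite := (Set.toFinite (B v : Set N)).image _
      exact h1.to_subtype
    have hF : F.map N.subtype = MulAut.conj g • (B v).map N.subtype := by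
      ext x
      constructor
      · rintro ⟨_, ⟨y, hy, rfl⟩, rfl⟩
        exact ⟨y, ⟨y, hy, rfl⟩, rfl⟩
      · rintro ⟨_, ⟨y, hy, rfl⟩, rfl⟩
        exact ⟨ψ y, ⟨y, hy, rfl⟩, rfl⟩
    obtain ⟨σ, -, hσ, m, hm⟩ := fin_clique h _ Set.univ (Set.toFinite _) rfl F (fun x _ => by
      have h1 : er h Set.univ = MonoidHom.id N := by
        apply ext_gp h
        intro w y hy
        rw [er_mem h (Set.mem_univ w) hy]
        rfl
      rw [h1]; rfl)
    let K : Subgroup N := F.map (MulAut.conj m⁻¹).toMonoidHom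
    have hK : K ∈ 𝓢 := by
      refine Set.mem_biUnion hσ ?_
      rintro _ ⟨x, hx, rfl⟩
      have := hm x hx
      show m⁻¹ * x * m⁻¹⁻¹ ∈ _
      rwa [inv_inv]
    refine ⟨⟨K, hK⟩, m, ?_⟩
    rw [← hF]
    ext x
    constructor
    · rintro ⟨y, hy, rfl⟩
      refine ⟨(m : G)⁻¹ * y * m, ⟨m⁻¹ * y * m, ⟨y, hy, ?_⟩, rfl⟩, ?_⟩
      · show m⁻¹ * y * m⁻¹⁻¹ = _
        rw [inv_inv]
      · show (m : G) * ((m : G)⁻¹ * y * m) * (m : G)⁻¹ = y
        group
    · rintro ⟨_, ⟨_, ⟨y, hy, rfl⟩, rfl⟩, rfl⟩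
      refine ⟨y, hy, ?_⟩
      show (y : G) = (m : G) * ((m : G)⁻¹ * y * ((m : G)⁻¹)⁻¹) * (m : G)⁻¹
      group
  · intro v x hx
    have hBfin : Finite ((B v).map N.subtype) := by
      have h1 : (((B v).map N.subtype : Subgroup G) : Set G).Finite :=
        (Set.toFinite (B v : Set N)).image _
      exact h1.to_subtype
    exact c_fin_cyc hC _ x hx

end Pool.Agent.X201.FJ
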