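import Pool.Agent.X201.FG.Main
import Pool.Agent.X201.RA.Virt

/-!
Extensions whose kernel is virtually a graph product of finite groups.
-/

set_option autoImplicit false

namespace Pool.Agent.X201.FJ

open Pool.Agent.Y110.FJ Pool.Agent.X176.FJ
open Pool.Agent.Y462.SS (Closed)
open SimpleGraph
open scoped Pointwise

variable {C : ∀ (G : Type) [Group G], Prop}

/-- graph products and isomorphisms -/
theorem map_gp {M M' V : Type} [Group M] [Group M'] {Λ : SimpleGraph V} {B : V → Subgroup M}
    (h : IsGP Λ B) (e : M ≃* M') : IsGP Λ (fun v => (B v).map e.toMonoidHom) where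
  comm := by
    rintro u v huv _ ⟨x, hx, rfl⟩ _ ⟨y, hy, rfl⟩
    rw [← map_mul, h.comm u v huv x hx y hy, map_mul]
  gen := by
    rw [← Subgroup.map_iSup, h.gen, ← MonoidHom.range_eq_map]
    exact MonoidHom.range_eq_top.2 e.surjective
  univ := by
    intro H _ f hf
    let j : ∀ v, B v →* (B v).map e.toMonoidHom := fun v =>
      { toFun := fun x => ⟨e x, x, x.2, rfl⟩
        map_one' := Subtype.ext (map_one e)
        map_mul' := fun x y => Subtype.ext (map_mul e _ _) }
    obtain ⟨k, hk⟩ := h.univ H (fun v => (f v).comp (j v)) (fun u v huv x y => hf u v huv _ _)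
    refine ⟨k.comp e.symm.toMonoidHom, ?_⟩
    rintro v ⟨_, x, hx, rfl⟩
    show k (e.symm (e x)) = _
    rw [MulEquiv.symm_apply_apply]
    exact hk v ⟨x, hx⟩

/-- finite kernels -/
theorem c_finker (hC : ClosedE C) {H : Type} [Group H] (F : Subgroup H) [hF : F.Normal] [Finite F]
    (h : C (H ⧸ F)) : C H := by
  have hn : ∀ x : H, MulAut.conj x • F = F := by
    intro x
    ext y
    constructor
    · rintro ⟨z, hz, rfl⟩
      exact hF.conj_mem z hz x
    · intro hy
      refine ⟨x⁻¹ * y * x, ?_, ?_⟩
      · have := hF.conj_mem y hy x⁻¹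
        rwa [inv_inv] at this
      · show x * (x⁻¹ * y * x) * x⁻¹ = y
        group
  refine Pool.Agent.Y529.FJ.t_ext C hC H F ?_ h fun g _ => c_fin_cyc hC F g (hn g)
  exact c_sub hC.base le_sup_left (c_fin_cyc hC F 1 (hn 1))

/-- **extensions whose kernel is virtually a graph product of finite groups over a finite graph** -/
theorem gp_finite_virt (hC : ClosedE C) (hFK : FrKer C) {G V : Type} [Group G] [Finite V]
    (A N : Subgroup G) [hN : N.Normal] (hAN : A ≤ N) (hfi : A.relIndex N ≠ 0) (Λ : SimpleGraph V)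
    (B : V → Subgroup A) (h : IsGP Λ B) (hfin : ∀ v, Finite (B v)) (hQ : C (G ⧸ N)) : C G := by
  classical
  -- `N` is finitely generated
  have hfg : Group.FG N := by
    have h1 : (A.subgroupOf N).FiniteIndex := ⟨hfi⟩
    let S : Set A := ⋃ v, (B v : Set A)
    have hS : S.Finite := Set.finite_iUnion fun v => Set.toFinite (B v : Set A)
    refine RA.fg_over (A.subgroupOf N) (Subgroup.inclusion hAN '' S) (hS.image _) ?_ h1
    have h2 : Subgroup.closure S = ⊤ := by
      rw [eq_top_iff, ← h.gen]
      apply iSup_le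
      intro v x hx
      exact Subgroup.subset_closure (Set.mem_iUnion.2 ⟨v, hx⟩)
    rw [← MonoidHom.map_closure, h2]
    ext x
    constructor
    · rintro ⟨y, -, rfl⟩
      exact y.2
    · intro hx
      exact ⟨⟨(x : G), hx⟩, Subgroup.mem_top _, rfl⟩
  let G1 : Subgroup G := Subgroup.normalizer (A : Set G)
  refine hC.base.finiteIndex G G1 (RA.norm_fi A N hAN hfi hfg) ?_
  have hA1 : A ≤ G1 := Subgroup.le_normalizer
  let A1 : Subgroup G1 := A.subgroupOf G1
  have hA1n : A1.Normal := Subgroup.normal_in_normalizer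
  let e : A ≃* A1 := (Subgroup.subgroupOfEquivOfLe hA1).symm
  refine gp_finite hC hFK A1 Λ _ (map_gp h e) ?_ ?_
  · intro v
    have h1 : (((B v).map e.toMonoidHom : Subgroup A1) : Set A1).Finite :=
      (Set.toFinite (B v : Set A)).image _
    exact h1.to_subtype
  -- the finite kernel
  let N1 : Subgroup G1 := N.subgroupOf G1
  have hN1 : N1.Normal := inferInstance
  have hle : A1 ≤ N1 := fun x hx => hAN hx
  let F : Subgroup (G1 ⧸ A1) := N1.map (QuotientGroup.mk' A1)
  have hFn : F.Normal := Subgroup.Normal.map hN1 _ (QuotientGroup.mk'_surjective _)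
  have hFfin : Finite F := by
    have h1 : Finite (N ⧸ A.subgroupOf N) := by
      have h2 : (A.subgroupOf N).FiniteIndex := ⟨hfi⟩
      infer_instance
    have h2 : ∀ y : F, ∃ n : N1, ((n : G1) : G1 ⧸ A1) = y := by
      rintro ⟨_, n, hn, rfl⟩
      exact ⟨⟨n, hn⟩, rfl⟩
    choose r hr using h2
    refine Finite.of_injective (fun y : F => (((⟨((r y : G1) : G), (r y).2⟩ : N)) :
      N ⧸ A.subgroupOf N)) ?_
    intro y z hyz
    have h3 := QuotientGroup.eq.1 hyz
    apply Subtype.ext
    rw [← hr y, ← hr z, QuotientGroup.eq]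
    exact h3
  refine c_finker hC F ?_
  refine hC.base.of_injective _ _ (QuotientGroup.quotientQuotientEquivQuotient A1 N1 hle).toMonoidHom
    (QuotientGroup.quotientQuotientEquivQuotient A1 N1 hle).injective ?_
  refine hC.base.of_injective _ _ (QuotientGroup.lift N1 ((QuotientGroup.mk' N).comp G1.subtype) ?_) ?_ hQ
  · intro z hz
    exact (QuotientGroup.eq_one_iff _).2 hz
  · rw [injective_iff_map_eq_one]
    intro q hq
    obtain ⟨z, rfl⟩ := QuotientGroup.mk_surjective q
    have h1 : ((z : G) : G ⧸ N) = 1 := hq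
    have h2 : (z : G) ∈ N := (QuotientGroup.eq_one_iff _).1 h1
    exact (QuotientGroup.eq_one_iff _).2 h2

end Pool.Agent.X201.FJ
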